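import Pool.Agent.H499.PS.Main

/-!
# Polarizations and their signs are visible modulo powers of `p` and at most primes

Let `K` be a number field, `p` a prime number (called `ℓ` below), `k` the algebraic closure of `ℚ_p` with ring of
integers `O`, `θ` an involution of the group `G_K` and `χ : G_K → O^×` a character with `χ ∘ θ = χ`. In Q1 the field
`K` is CM, `θ(g) = c g c` with a complex conjugation `c`, and `χ` is the inverse of `Ψ` restricted to `G_K`.
An irreducible representation `R` of dimension `n` with `R^∨ ≅ R^c ⊗ Ψ` has a POLARIZATION: an invertible matrix `J`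
with `R(θ g)ᵀ J R(g) = χ(g) J`, unique up to a factor, and `Jᵀ = ε J` with a SIGN `ε = ± 1`. For the
representations `ρ_π` attached to regular algebraic essentially conjugate self-dual cuspidal `π` (with the normalisation
of `χ` at the complex conjugation) the sign is `+1` (theorem of Bellaïche and Chenevier), and the known automorphy
theorems are for this sign; Q1 does not assume it.

A torsion representation `r : G_K → GL_n(O/p^m)` has a polarization of sign `ε` and defect `a ∈ O` if there are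
matrices `J`, `J'` with `J J' = J' J = a`, `Jᵀ = ε J` and `r(θ g)ᵀ J r(g) = χ(g) J` modulo `p^m`. (Reductions of a
polarized `R` have this with a fixed `a ≠ 0`; the form is not unimodular in general.)

1. SIGN FORMULA. If `R` is irreducible and `tr R(g) = χ(g) tr R(θ g)⁻¹` for all `g`, then there is exactly one sign,
   and it is given by the traces: for all families `g_1, ..., g_N`, `N = n²`, with the Gram matrix
   `G = (tr R(g_i g_j))` and the twisted Gram matrix `G* = (χ(θ g_j) tr R(g_i (θ g_j)⁻¹))`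
   `tr (adj(G) G*) = ε n det G`, and `det G ≠ 0` for some family. So the sign can be read off from the traces at finitely
   many Frobenius elements modulo one power of `p`.
2. CLOSEDNESS. Let `R` be continuous and irreducible. `R` has a polarization of sign `ε` if and only if there is `a ≠ 0`
   such that for all `m` there is a representation `r_m` over `O/p^m` with open kernel, any ramification, with a
   polarization of sign `ε` and defect `a`, whose trace at `Frob_v` is the one of `R` modulo `p^m` for all `v` outside a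
   set of upper density less than `1/(2n²)`. The same holds with `p`-adic representations `R_m` with polarizations
   of sign `ε` with respect to characters `χ_m` congruent to `χ` modulo `p^m`, without a condition on defects.
3. RIGIDITY. If `R` is continuous, irreducible and has a polarization of sign `ε`, `p^m` does not divide
   `2 n a det (tr R(g_i g_j))` for some family, and `r` is a representation over `O/p^m` with open kernel with a
   polarization of sign `ε'` and defect `a`, with the traces of `R` modulo `p^m` outside a set of places of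
   upper density less than `1/(2n²)`, then `ε' = ε`. If `R'` is a `p`-adic representation with a polarization of sign
   `ε'` with respect to a character congruent to `χ` modulo `p^m`, with traces congruent to those of `R` modulo
   `p^m` outside such a set, and `p^m` does not divide `2 n det (tr R(g_i g_j))`, then `R'` is irreducible and `ε' = ε`.
4. For representations unramified outside a finite set `S` and residually unipotent on a fixed open subgroup `U`
   (admissible) there is a FINITE set `P` of places, depending only on `K, p, n, S, U`, not on `m`, `R`, `r`, `R'`, `χ`,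
   `θ` or the Hodge-Tate weights, such that in 2 and 3 the congruences at the places of `P` are enough.

So for every irreducible polarized `R` of the wrong sign there is `m` such that `R` is not congruent modulo `p^m` at
most primes, or at the places of `P`, to any representation attached to a regular algebraic essentially conjugate
self-dual cuspidal `π`, of any weight and level, with character congruent to `χ`; such `R` can not be
reached by `p`-adic approximation by automorphic representations, and a `p`-adic limit (at most primes, or at the places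
of `P`) of automorphic representations which is irreducible is polarized with the right sign. Nothing is assumed on the
residual representation, which can be trivial, on the restrictions to the decomposition groups at `p`, or on the
ramification in 2 and 3.

Idea of the proof. For matrices `x_i` and the linear map `x ↦ x* = J⁻¹ xᵀ J`, of trace `ε n`, the matrices
`G = (tr x_i x_j)` and `G* = (tr x_i x_j*)` satisfy `tr(adj(G) G*) = det(G) ε n` over any ring. Over a ring in which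
the ideals are totally ordered the traces agree everywhere if they agree outside a set of density less than
`1/(2n²)`.
-/

set_option autoImplicit false

namespace Pool.Agent.Results.MP_adf543_nt.SignModuloPowers

open NumberField IsDedekindDomain
open Pool.Agent.W401.Cheb (GK IsFrob IsInert)
open Pool.Agent.H499.CM Pool.Agent.H499.IR Pool.Agent.H499.PS
open Pool.Agent.H499.PW (AdmAdic AdmMod exists_P)

/-- representations of the absolute Galois group over the algebraic closure of `ℚ_ℓ` -/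
abbrev Rep (K : Type) [Field K] [NumberField K] (ℓ : ℕ) [Fact ℓ.Prime] (n : ℕ) : Type :=
  GK K →* GL (Fin n) (PadicAlgCl ℓ)

/-- the integers of the algebraic closure of `ℚ_ℓ` modulo `ℓ ^ m` -/
def Tor (ℓ : ℕ) [Fact ℓ.Prime] (m : ℕ) : Type := OO ℓ ⧸ Ideal.span {(ℓ : OO ℓ) ^ m}

noncomputable instance instTor (ℓ : ℕ) [Fact ℓ.Prime] (m : ℕ) : CommRing (Tor ℓ m) :=
  Ideal.Quotient.commRing (Ideal.span {(ℓ : OO ℓ) ^ m})

/-- reduction modulo `ℓ ^ m` -/
noncomputable def red (ℓ : ℕ) [Fact ℓ.Prime] (m : ℕ) : OO ℓ →+* Tor ℓ m :=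
  Ideal.Quotient.mk (Ideal.span {(ℓ : OO ℓ) ^ m})

/-- the trace -/
def tr {G A : Type} [Group G] [CommRing A] {n : ℕ} (r : G →* GL (Fin n) A) (σ : G) : A :=
  (r σ : Matrix (Fin n) (Fin n) A).trace

section

variable (K : Type) [Field K] [NumberField K] (ℓ : ℕ) [Fact ℓ.Prime] (n : ℕ) (θ : GK K →* GK K)

/-- `ρ` has a polarization with respect to `θ`, `χ` of sign `ε` -/
def Polarized (χ : GK K →* (OO ℓ)ˣ) (ε : ℤˣ) (ρ : Rep K ℓ n) : Prop := Form θ (cm (emb ℓ) χ) ρ ε 1

/-- `r` has a polarization modulo `ℓ ^ m` with respect to `θ`, `χ` of sign `ε` and defect `a` -/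
def PolarizedMod (χ : GK K →* (OO ℓ)ˣ) (ε : ℤˣ) (a : OO ℓ) (m : ℕ) (r : GK K →* GL (Fin n) (Tor ℓ m)) : Prop :=
  Form θ (cm (red ℓ m) χ) r ε (red ℓ m a)

/-- the places `v` with `¬ Good v` have upper density less than `1 / (2 n ^ 2)` -/
def Mostly (Good : HeightOneSpectrum (𝓞 K) → Prop) : Prop :=
  ∃ δ : ℝ, δ * (2 * n ^ 2) < 1 ∧ UpperDensityLE (fun v => ¬ Good v) δ

/-- 1. -/
def SignFormula (χ : GK K →* (OO ℓ)ˣ) : Prop :=
  ∀ ρ : Rep K ℓ n, Irr ρ → (∀ g, tr ρ g = ((χ g : OO ℓ) : PadicAlgCl ℓ) * tr ρ (θ g)⁻¹) →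
    (∃! ε : ℤˣ, Polarized K ℓ n θ χ ε ρ) ∧ (∃ g, gram ρ g ≠ 0) ∧
    ∀ ε : ℤˣ, Polarized K ℓ n θ χ ε ρ → ∀ g : Fin (n ^ 2) → GK K,
      sg θ (cm (emb ℓ) χ) (tr ρ) g = (ε : ℤ) * n * gram ρ g

/-- 2. -/
def Closedness (χ : GK K →* (OO ℓ)ˣ) : Prop :=
  ∀ ρ : Rep K ℓ n, Continuous ρ → Irr ρ → ∀ ε : ℤˣ,
    List.TFAE [Polarized K ℓ n θ χ ε ρ,
      ∃ a : OO ℓ, a ≠ 0 ∧ ∀ m, ∃ r : GK K →* GL (Fin n) (Tor ℓ m), IsOpen (r.ker : Set (GK K)) ∧
        PolarizedMod K ℓ n θ χ ε a m r ∧ ∀ v, CongAt (red ℓ m) ρ r v,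
      ∃ a : OO ℓ, a ≠ 0 ∧ ∀ m, ∃ r : GK K →* GL (Fin n) (Tor ℓ m), IsOpen (r.ker : Set (GK K)) ∧
        PolarizedMod K ℓ n θ χ ε a m r ∧ Mostly K n fun v => CongAt (red ℓ m) ρ r v,
      ∀ m, ∃ (ρ' : Rep K ℓ n) (χ' : GK K →* (OO ℓ)ˣ), Continuous ρ' ∧ Polarized K ℓ n θ χ' ε ρ' ∧
        cm (red ℓ m) χ' = cm (red ℓ m) χ ∧ Mostly K n fun v => NearAt m ρ ρ' v]

/-- 3. -/
def Rigidity (χ : GK K →* (OO ℓ)ˣ) : Prop :=
  ∀ (ρ : Rep K ℓ n) (ε : ℤˣ) (g : Fin (n ^ 2) → GK K) (m : ℕ), Continuous ρ → Irr ρ → Polarized K ℓ n θ χ ε ρ →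
    (∀ (a : OO ℓ) (r : GK K →* GL (Fin n) (Tor ℓ m)) (ε' : ℤˣ),
      ‖(ℓ : PadicAlgCl ℓ)‖ ^ m < ‖2 * n * (a : PadicAlgCl ℓ) * gram ρ g‖ → IsOpen (r.ker : Set (GK K)) →
      PolarizedMod K ℓ n θ χ ε' a m r → (Mostly K n fun v => CongAt (red ℓ m) ρ r v) → ε = ε') ∧
    ∀ (ρ' : Rep K ℓ n) (χ' : GK K →* (OO ℓ)ˣ) (ε' : ℤˣ),
      ‖(ℓ : PadicAlgCl ℓ)‖ ^ m < ‖2 * n * gram ρ g‖ → Continuous ρ' → Polarized K ℓ n θ χ' ε' ρ' →
      cm (red ℓ m) χ' = cm (red ℓ m) χ → (Mostly K n fun v => NearAt m ρ ρ' v) → Irr ρ' ∧ ε = ε'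

/-- 4. -/
def FinitelyManyPlaces (S : Set (HeightOneSpectrum (𝓞 K))) (U : Subgroup (GK K))
    (P : Finset (HeightOneSpectrum (𝓞 K))) : Prop :=
  ∀ (θ : GK K →* GK K) (χ : GK K →* (OO ℓ)ˣ) (ρ : Rep K ℓ n) (ε : ℤˣ), (∀ g, θ (θ g) = g) → (∀ g, χ (θ g) = χ g) →
    AdmAdic S U ρ → Irr ρ →
    ((∃ a : OO ℓ, a ≠ 0 ∧ ∀ m, ∃ r : GK K →* GL (Fin n) (Tor ℓ m), AdmMod S U (red ℓ m) r ∧
        PolarizedMod K ℓ n θ χ ε a m r ∧ ∀ v ∈ P, CongAt (red ℓ m) ρ r v) → Polarized K ℓ n θ χ ε ρ) ∧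
    (Polarized K ℓ n θ χ ε ρ → ∀ (g : Fin (n ^ 2) → GK K) (m : ℕ),
      (∀ (a : OO ℓ) (r : GK K →* GL (Fin n) (Tor ℓ m)) (ε' : ℤˣ),
        ‖(ℓ : PadicAlgCl ℓ)‖ ^ m < ‖2 * n * (a : PadicAlgCl ℓ) * gram ρ g‖ → AdmMod S U (red ℓ m) r →
        PolarizedMod K ℓ n θ χ ε' a m r → (∀ v ∈ P, CongAt (red ℓ m) ρ r v) → ε = ε') ∧
      ∀ (ρ' : Rep K ℓ n) (χ' : GK K →* (OO ℓ)ˣ) (ε' : ℤˣ),
        ‖(ℓ : PadicAlgCl ℓ)‖ ^ m < ‖2 * n * gram ρ g‖ → AdmAdic S U ρ' → Polarized K ℓ n θ χ' ε' ρ' →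
        cm (red ℓ m) χ' = cm (red ℓ m) χ → (∀ v ∈ P, NearAt m ρ ρ' v) → Irr ρ' ∧ ε = ε')

end

theorem result (K : Type) [Field K] [NumberField K] (ℓ : ℕ) [Fact ℓ.Prime] (n : ℕ) :
    (∀ (θ : GK K →* GK K) (χ : GK K →* (OO ℓ)ˣ), (∀ g, θ (θ g) = g) → (∀ g, χ (θ g) = χ g) →
      SignFormula K ℓ n θ χ ∧ Closedness K ℓ n θ χ ∧ Rigidity K ℓ n θ χ) ∧
    ∀ (S : Set (HeightOneSpectrum (𝓞 K))) (U : Subgroup (GK K)), S.Finite → IsOpen (U : Set (GK K)) →
      ∃ P : Finset (HeightOneSpectrum (𝓞 K)), (∀ v ∈ P, v ∉ S) ∧ FinitelyManyPlaces K ℓ n S U P := by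
  refine ⟨fun θ χ hθ hχ => ⟨fun ρ hirr ht => ?_, fun ρ hρ hirr ε => ?_, fun ρ ε g m hρ hirr hp =>
    ⟨fun a r ε' hg hr hp' ⟨δ, hδ, h⟩ => rigid_torsion hθ hρ hp g m a r hg hr hp' δ hδ h,
      fun ρ' χ' ε' hg hρ' hp' hχ' ⟨δ, hδ, h⟩ => near_rigid hθ hρ hirr hρ' hp hp' m hχ' g hg δ hδ h⟩⟩,
    fun S U hS hU => ?_⟩
  · obtain ⟨ε, hε⟩ := exists_form hθ (χ := cm (emb ℓ) χ) (fun g => by
      show Units.map _ (χ (θ g)) = Units.map _ (χ g)
      rw [hχ]) hirr ht
    refine ⟨⟨ε, hε, fun ε' hε' => sign_unique hθ hirr hε' hε⟩, exists_gram hirr, fun ε' hε' g => ?_⟩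
    have h1 := sign_formula hθ hε' g
    rw [one_mul, one_mul] at h1
    exact h1
  · tfae_have 1 → 2 := fun h => torsion_of_adic hρ h
    tfae_have 2 → 3 := fun ⟨a, ha, h⟩ => ⟨a, ha, fun m => by
      obtain ⟨r, h1, h2, h3⟩ := h m
      exact ⟨r, h1, h2, 0, by rw [zero_mul]; exact one_pos, mostly_all h3⟩⟩
    tfae_have 3 → 1 := fun ⟨a, ha, h⟩ => closed_torsion hθ hχ hρ hirr a ha h
    tfae_have 1 → 4 := fun h m => ⟨ρ, χ, hρ, h, rfl, 0, by rw [zero_mul]; exact one_pos, mostly_all fun v σ _ => by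
      rw [sub_self, norm_zero]
      exact pow_nonneg (norm_nonneg _) _⟩
    tfae_have 4 → 1 := fun h => closed_adic hθ hχ hρ hirr h
    tfae_finish
  · obtain ⟨P, hPS, hP⟩ := exists_P (n := n) (ℓ := ℓ) S hS U hU
    exact ⟨P, hPS, fun θ χ ρ ε hθ hχ hρ hirr => ⟨fun ⟨a, ha, h⟩ => closed_P hP hθ hχ hρ hirr a ha h,
      fun hp g m => ⟨fun a r ε' hg hr hp' h => rigid_P hP hθ hρ hp g m a r hg hr hp' h,
        fun ρ' χ' ε' hg hρ' hp' hχ' h => near_rigid_P hP hθ hρ hirr hρ' hp hp' m hχ' g hg h⟩⟩⟩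

end Pool.Agent.Results.MP_adf543_nt.SignModuloPowers
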